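import Pool.Agent.H18.GZ.Targets3

/-!
MP_52e316_nt, cusp forms of `GL_m(Z)`, row ABL: half of the Mellin integral in terms of the
partial sums.
-/

set_option autoImplicit false

namespace Pool.Agent.H32.GZ

open MeasureTheory Pool.Agent.H34.GM Pool.Agent.H34.GZ

theorem lint_rpow (s R : ℝ) (hs : 0 < s) (hR : 0 ≤ R) :
    ∫⁻ r in Set.Ioc (0 : ℝ) R, ENNReal.ofReal (r ^ (s - 1)) = ENNReal.ofReal (R ^ s / s) := by
  have hint : IntegrableOn (fun r : ℝ => r ^ (s - 1)) (Set.Ioc 0 R) volume := by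
    have := intervalIntegral.intervalIntegrable_rpow' (a := 0) (b := R) (r := s - 1) (by linarith)
    exact (intervalIntegrable_iff_integrableOn_Ioc_of_le hR).1 this
  rw [← ofReal_integral_eq_lintegral_ofReal hint]
  · rw [← intervalIntegral.integral_of_le hR, integral_rpow (Or.inl (by linarith))]
    congr 1
    rw [show s - 1 + 1 = s by ring, Real.zero_rpow hs.ne', sub_zero]
  · refine (ae_restrict_iff' measurableSet_Ioc).2 (Filter.Eventually.of_forall fun r hr => ?_)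
    exact Real.rpow_nonneg hr.1.le _

/-- one power -/
theorem lint_le (s c R : ℝ) (hs : 0 < s) (hc : 0 ≤ c) (hR : 0 ≤ R) (S : Set ℝ)
    (hS : S ⊆ Set.Ioc 0 R) (f : ℝ → ℝ) (hf : ∀ r ∈ S, f r ≤ c * r ^ (s - 1))
    (hSm : MeasurableSet S) :
    ∫⁻ r in S, ENNReal.ofReal (f r) ≤ ENNReal.ofReal (c * (R ^ s / s)) := by
  calc ∫⁻ r in S, ENNReal.ofReal (f r) ≤ ∫⁻ r in S, ENNReal.ofReal c * ENNReal.ofReal (r ^ (s - 1)) := by
        refine setLIntegral_mono' hSm fun r hr => ?_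
        rw [← ENNReal.ofReal_mul hc]
        exact ENNReal.ofReal_le_ofReal (hf r hr)
    _ ≤ ∫⁻ r in Set.Ioc (0 : ℝ) R, ENNReal.ofReal c * ENNReal.ofReal (r ^ (s - 1)) :=
        lintegral_mono_set hS
    _ = ENNReal.ofReal c * ENNReal.ofReal (R ^ s / s) := by
        rw [lintegral_const_mul' _ _ ENNReal.ofReal_ne_top, lint_rpow s R hs hR]
    _ = ENNReal.ofReal (c * (R ^ s / s)) := by rw [ENNReal.ofReal_mul hc]

theorem inner_bound (b ε z Q p : ℝ) (K : ℕ) (hε : 0 < ε) (hz0 : 0 < z)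
    (hz1 : z ≤ 1) (hQ : 1 ≤ Q) (hp : 0 ≤ p) (hK : b + p + 1 ≤ K) :
    ∫⁻ r in Set.Ioc (0 : ℝ) Q, ENNReal.ofReal (min ((r * z) ^ K) ((r * z) ^ (b + ε)) *
      r ^ (-b - 1)) ≤ ENNReal.ofReal ((1 + 1 / ε) * Q ^ ε * (z ^ b * min 1 ((Q * z) ^ p))) := by
  have hQ0 : 0 < Q := by linarith
  have hs : 0 < (K : ℝ) - b := by linarith
  have hs1 : 1 ≤ (K : ℝ) - b := by linarith
  have hQe : 1 ≤ Q ^ ε := Real.one_le_rpow hQ hε.le
  have hzb : 0 < z ^ b := Real.rpow_pos_of_pos hz0 _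
  have hfi : ∀ r : ℝ, 0 < r → min ((r * z) ^ K) ((r * z) ^ (b + ε)) * r ^ (-b - 1) ≤
      z ^ K * r ^ ((K : ℝ) - b - 1) := by
    intro r hr
    calc min ((r * z) ^ K) ((r * z) ^ (b + ε)) * r ^ (-b - 1) ≤ (r * z) ^ K * r ^ (-b - 1) :=
          mul_le_mul_of_nonneg_right (min_le_left _ _) (Real.rpow_nonneg hr.le _)
      _ = z ^ K * r ^ ((K : ℝ) - b - 1) := by
          rw [mul_pow, show (K : ℝ) - b - 1 = K + (-b - 1) by ring, Real.rpow_add hr,
            Real.rpow_natCast]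
          ring
  have hfii : ∀ r : ℝ, 0 < r → min ((r * z) ^ K) ((r * z) ^ (b + ε)) * r ^ (-b - 1) ≤
      z ^ (b + ε) * r ^ (ε - 1) := by
    intro r hr
    calc min ((r * z) ^ K) ((r * z) ^ (b + ε)) * r ^ (-b - 1) ≤ (r * z) ^ (b + ε) * r ^ (-b - 1) :=
          mul_le_mul_of_nonneg_right (min_le_right _ _) (Real.rpow_nonneg hr.le _)
      _ = z ^ (b + ε) * r ^ (ε - 1) := by
          have e : r ^ (ε - 1) = r ^ (b + ε) * r ^ (-b - 1) := by
            rw [← Real.rpow_add hr]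
            congr 1
            ring
          rw [Real.mul_rpow hr.le hz0.le, e]
          ring
  have hzK : z ^ K = z ^ b * z ^ ((K : ℝ) - b) := by
    rw [← Real.rpow_add hz0, show b + ((K : ℝ) - b) = K by ring, Real.rpow_natCast]
  by_cases hc : Q * z ≤ 1
  · have hw : min 1 ((Q * z) ^ p) = (Q * z) ^ p :=
      min_eq_right (Real.rpow_le_one (by positivity) hc hp)
    rw [hw]
    refine (lint_le ((K : ℝ) - b) (z ^ K) Q hs (by positivity) hQ0.le (Set.Ioc 0 Q) le_rfl _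
      (fun r hr => hfi r hr.1) measurableSet_Ioc).trans ?_
    apply ENNReal.ofReal_le_ofReal
    have h1 : Q ^ ((K : ℝ) - b) / ((K : ℝ) - b) ≤ Q ^ ((K : ℝ) - b) :=
      div_le_self (Real.rpow_nonneg hQ0.le _) hs1
    have h2 : (Q * z) ^ ((K : ℝ) - b) ≤ (Q * z) ^ p :=
      Real.rpow_le_rpow_of_exponent_ge (by positivity) hc (by linarith)
    calc z ^ K * (Q ^ ((K : ℝ) - b) / ((K : ℝ) - b)) ≤ z ^ K * Q ^ ((K : ℝ) - b) :=
          mul_le_mul_of_nonneg_left h1 (by positivity)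
      _ = z ^ b * (Q * z) ^ ((K : ℝ) - b) := by
          rw [hzK, Real.mul_rpow hQ0.le hz0.le]
          ring
      _ ≤ z ^ b * (Q * z) ^ p := mul_le_mul_of_nonneg_left h2 hzb.le
      _ ≤ (1 + 1 / ε) * Q ^ ε * (z ^ b * (Q * z) ^ p) := by
          have h3 : 0 ≤ z ^ b * (Q * z) ^ p := by positivity
          have h4 : 1 ≤ (1 + 1 / ε) * Q ^ ε := by
            have : 0 < 1 / ε := by positivity
            nlinarith
          nlinarith
  · push Not at hc
    have hw : min 1 ((Q * z) ^ p) = 1 := min_eq_left (Real.one_le_rpow hc.le hp)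
    rw [hw, mul_one]
    have hzi : 0 < 1 / z := by positivity
    have hsub : Set.Ioc (0 : ℝ) Q ⊆ Set.Ioc 0 (1 / z) ∪ Set.Ioc (1 / z) Q := by
      intro r hr
      by_cases h : r ≤ 1 / z
      · exact Or.inl ⟨hr.1, h⟩
      · exact Or.inr ⟨not_le.1 h, hr.2⟩
    refine (lintegral_mono_set hsub).trans ((lintegral_union_le _ _ _).trans ?_)
    have hA := lint_le ((K : ℝ) - b) (z ^ K) (1 / z) hs (by positivity) hzi.le
      (Set.Ioc 0 (1 / z)) le_rfl
      (fun r => min ((r * z) ^ K) ((r * z) ^ (b + ε)) * r ^ (-b - 1))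
      (fun r hr => hfi r hr.1) measurableSet_Ioc
    have hB := lint_le ε (z ^ (b + ε)) Q hε (by positivity) hQ0.le
      (Set.Ioc (1 / z) Q) (fun r hr => ⟨hzi.trans hr.1, hr.2⟩)
      (fun r => min ((r * z) ^ K) ((r * z) ^ (b + ε)) * r ^ (-b - 1))
      (fun r hr => hfii r (hzi.trans hr.1)) measurableSet_Ioc
    refine (add_le_add hA hB).trans ?_
    rw [← ENNReal.ofReal_add (by positivity) (by positivity)]
    apply ENNReal.ofReal_le_ofReal
    have h1 : z ^ K * ((1 / z) ^ ((K : ℝ) - b) / ((K : ℝ) - b)) ≤ z ^ b := by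
      have e1 : z ^ K * (1 / z) ^ ((K : ℝ) - b) = z ^ b := by
        rw [hzK, one_div, Real.inv_rpow hz0.le, mul_assoc, mul_inv_cancel₀, mul_one]
        exact (Real.rpow_pos_of_pos hz0 _).ne'
      rw [← mul_div_assoc, e1]
      exact div_le_self hzb.le hs1
    have h2 : z ^ (b + ε) * (Q ^ ε / ε) ≤ z ^ b * (Q ^ ε / ε) := by
      apply mul_le_mul_of_nonneg_right _ (by positivity)
      exact Real.rpow_le_rpow_of_exponent_ge hz0 hz1 (by linarith)
    calc z ^ K * ((1 / z) ^ ((K : ℝ) - b) / ((K : ℝ) - b)) + z ^ (b + ε) * (Q ^ ε / ε)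
        ≤ z ^ b + z ^ b * (Q ^ ε / ε) := add_le_add h1 h2
      _ ≤ z ^ b * Q ^ ε + z ^ b * (Q ^ ε / ε) := by nlinarith
      _ = (1 + 1 / ε) * Q ^ ε * z ^ b := by ring

theorem measurable_SF (m q : ℕ) (lam : ℕ → ℂ) : Measurable (SF m q lam) := by
  have : SF m q lam = (fun N : ℕ => ∑ n ∈ Finset.Icc 1 N, if n.Coprime q then
      (n : ℂ) ^ (((m : ℂ) - 1) / 2) * lam n else 0) ∘ (fun y : ℝ => ⌊y⌋₊) := by
    funext y
    rfl
  rw [this]
  exact measurable_from_nat.comp Nat.measurable_floor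

theorem abl_core (m q : ℕ) (hm : 1 ≤ m) (hq : 1 ≤ q) (ε J M : ℝ) (hε : 0 < ε) (hJ : 0 ≤ J)
    (hM : 0 ≤ M) (K : ℕ) (hK : (m : ℝ) ^ 2 / 2 + m * J + 1 ≤ K) (lam : ℕ → ℂ) (th : ℝ → ℝ)
    (hth : ∀ r : ℝ, 0 < r → ENNReal.ofReal (th r) ≤ ∫⁻ y in Set.Ioi (1 : ℝ), ENNReal.ofReal
      (‖SF m q lam y‖ * ((m : ℝ)⁻¹ * y⁻¹ * (M * min ((r * y ^ (-(1 / (m : ℝ)))) ^ K)
        ((r * y ^ (-(1 / (m : ℝ)))) ^ ((m : ℝ) ^ 2 / 2 + ε)))))) (hth0 : ∀ r, 0 ≤ th r) :
    ∫⁻ r in Set.Ioc (0 : ℝ) (Real.sqrt q), ENNReal.ofReal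
        (th r * r ^ (-((m : ℝ) ^ 2 / 2) - 1)) ≤
      ENNReal.ofReal ((1 + 1 / ε) * M * (q : ℝ) ^ (ε / 2)) *
        ∫⁻ y in Set.Ioi (1 : ℝ), ENNReal.ofReal
          (‖SF m q lam y‖ * y ^ (-((m : ℝ) / 2) - 1) * wJ m q J y) := by
  have hm1 : (1 : ℝ) ≤ m := by exact_mod_cast hm
  have hm0 : (0 : ℝ) < m := by linarith
  have hq1 : (1 : ℝ) ≤ q := by exact_mod_cast hq
  have hq0 : (0 : ℝ) < q := by linarith
  set b : ℝ := (m : ℝ) ^ 2 / 2 with hb
  have hb0 : 0 ≤ b := by positivity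
  have hQ1 : 1 ≤ Real.sqrt q := Real.one_le_sqrt.2 hq1
  have hSF := measurable_SF m q lam
  set G : ℝ → ENNReal := fun y => ENNReal.ofReal (‖SF m q lam y‖ * ((m : ℝ)⁻¹ * y⁻¹ * M)) with hG
  set H : ℝ → ℝ → ENNReal := fun r y => ENNReal.ofReal (min ((r * y ^ (-(1 / (m : ℝ)))) ^ K)
    ((r * y ^ (-(1 / (m : ℝ)))) ^ (b + ε)) * r ^ (-b - 1)) with hH
  have hGm : Measurable G := by
    refine ENNReal.measurable_ofReal.comp (hSF.norm.mul ?_)
    exact (measurable_const.mul measurable_inv).mul measurable_const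
  have hHm : Measurable (fun pr : ℝ × ℝ => H pr.1 pr.2) := by
    refine ENNReal.measurable_ofReal.comp ?_
    have h1 : Measurable (fun pr : ℝ × ℝ => pr.1 * pr.2 ^ (-(1 / (m : ℝ)))) :=
      measurable_fst.mul (measurable_snd.pow_const _)
    exact ((h1.pow_const K).min (h1.pow_const _)).mul (measurable_fst.pow_const _)
  have hstep1 : ∫⁻ r in Set.Ioc (0 : ℝ) (Real.sqrt q), ENNReal.ofReal
      (th r * r ^ (-b - 1)) ≤
      ∫⁻ r in Set.Ioc (0 : ℝ) (Real.sqrt q), ∫⁻ y in Set.Ioi (1 : ℝ), G y * H r y := by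
    refine setLIntegral_mono' measurableSet_Ioc fun r hr => ?_
    rw [ENNReal.ofReal_mul (hth0 r)]
    refine (mul_le_mul' (hth r hr.1) le_rfl).trans ?_
    rw [← lintegral_mul_const' _ _ ENNReal.ofReal_ne_top]
    refine setLIntegral_mono' measurableSet_Ioi fun y hy => ?_
    have hy1 : (1 : ℝ) < y := hy
    have hy0 : 0 < y := by linarith
    have hz : 0 < y ^ (-(1 / (m : ℝ))) := Real.rpow_pos_of_pos hy0 _
    have hmin : 0 ≤ min ((r * y ^ (-(1 / (m : ℝ)))) ^ K)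
        ((r * y ^ (-(1 / (m : ℝ)))) ^ (b + ε)) := by
      have := hr.1
      apply le_min <;> positivity
    rw [hG, hH]
    simp only
    rw [← ENNReal.ofReal_mul (by positivity), ← ENNReal.ofReal_mul (by positivity)]
    apply ENNReal.ofReal_le_ofReal
    apply le_of_eq
    ring
  refine hstep1.trans ?_
  rw [lintegral_lintegral_swap]
  swap
  · refine Measurable.aemeasurable ?_
    exact (hGm.comp measurable_snd).mul hHm
  calc ∫⁻ y in Set.Ioi (1 : ℝ), ∫⁻ r in Set.Ioc (0 : ℝ) (Real.sqrt q), G y * H r y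
      = ∫⁻ y in Set.Ioi (1 : ℝ), G y * ∫⁻ r in Set.Ioc (0 : ℝ) (Real.sqrt q), H r y := by
        refine lintegral_congr fun y => ?_
        rw [lintegral_const_mul' _ _ ENNReal.ofReal_ne_top]
    _ ≤ ∫⁻ y in Set.Ioi (1 : ℝ), ENNReal.ofReal ((1 + 1 / ε) * M * (q : ℝ) ^ (ε / 2)) *
          ENNReal.ofReal (‖SF m q lam y‖ * y ^ (-((m : ℝ) / 2) - 1) * wJ m q J y) := by
        refine setLIntegral_mono' measurableSet_Ioi fun y hy => ?_
        have hy1 : (1 : ℝ) < y := hy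
        have hy0 : 0 < y := by linarith
        set z : ℝ := y ^ (-(1 / (m : ℝ))) with hz
        have hz0 : 0 < z := Real.rpow_pos_of_pos hy0 _
        have hz1 : z ≤ 1 := Real.rpow_le_one_of_one_le_of_nonpos hy1.le
          (by
            have : 0 < 1 / (m : ℝ) := by positivity
            linarith)
        have h1 := inner_bound b ε z (Real.sqrt q) (m * J) K hε hz0 hz1 hQ1 (by positivity)
          hK
        refine (mul_le_mul' le_rfl h1).trans ?_
        rw [hG]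
        simp only
        have hzb : z ^ b = y ^ (-((m : ℝ) / 2)) := by
          rw [hz, ← Real.rpow_mul hy0.le]
          congr 1
          rw [hb]
          field_simp
        have hQe : Real.sqrt q ^ ε = (q : ℝ) ^ (ε / 2) := by
          rw [Real.sqrt_eq_rpow, ← Real.rpow_mul hq0.le]
          congr 1
          ring
        have hw : (Real.sqrt q * z) ^ ((m : ℝ) * J) = ((q : ℝ) ^ ((m : ℝ) / 2) / y) ^ J := by
          rw [Real.rpow_mul (by positivity)]
          congr 1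
          rw [Real.mul_rpow (Real.sqrt_nonneg _) hz0.le, Real.sqrt_eq_rpow,
            ← Real.rpow_mul hq0.le, hz, ← Real.rpow_mul hy0.le]
          have e1 : 1 / 2 * (m : ℝ) = (m : ℝ) / 2 := by ring
          have e2 : -(1 / (m : ℝ)) * (m : ℝ) = -1 := by field_simp
          rw [e1, e2, Real.rpow_neg_one]
          rfl
        have hwJ : min 1 ((Real.sqrt q * z) ^ ((m : ℝ) * J)) = wJ m q J y := by
          rw [hw]
          rfl
        have hwJ0 : 0 ≤ wJ m q J y := by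
          unfold wJ
          apply le_min
          · exact zero_le_one
          · positivity
        rw [hwJ, hzb, hQe, ← ENNReal.ofReal_mul (by positivity),
          ← ENNReal.ofReal_mul (by positivity)]
        apply ENNReal.ofReal_le_ofReal
        have e3 : y ^ (-((m : ℝ) / 2) - 1) = y⁻¹ * y ^ (-((m : ℝ) / 2)) := by
          rw [Real.rpow_sub hy0, Real.rpow_one]
          field_simp
        rw [e3]
        have hmi : (m : ℝ)⁻¹ ≤ 1 := inv_le_one_of_one_le₀ hm1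
        calc ‖SF m q lam y‖ * ((m : ℝ)⁻¹ * y⁻¹ * M) * ((1 + 1 / ε) * (q : ℝ) ^ (ε / 2) *
              (y ^ (-((m : ℝ) / 2)) * wJ m q J y))
            = (m : ℝ)⁻¹ * ((1 + 1 / ε) * M * (q : ℝ) ^ (ε / 2) *
              (‖SF m q lam y‖ * (y⁻¹ * y ^ (-((m : ℝ) / 2))) * wJ m q J y)) := by ring
          _ ≤ 1 * ((1 + 1 / ε) * M * (q : ℝ) ^ (ε / 2) *
              (‖SF m q lam y‖ * (y⁻¹ * y ^ (-((m : ℝ) / 2))) * wJ m q J y)) := by
              apply mul_le_mul_of_nonneg_right hmi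
              positivity
          _ = (1 + 1 / ε) * M * (q : ℝ) ^ (ε / 2) *
              (‖SF m q lam y‖ * (y⁻¹ * y ^ (-((m : ℝ) / 2))) * wJ m q J y) := by ring
    _ = ENNReal.ofReal ((1 + 1 / ε) * M * (q : ℝ) ^ (ε / 2)) *
        ∫⁻ y in Set.Ioi (1 : ℝ), ENNReal.ofReal
          (‖SF m q lam y‖ * y ^ (-((m : ℝ) / 2) - 1) * wJ m q J y) := by
        rw [lintegral_const_mul' _ _ ENNReal.ofReal_ne_top]

theorem pf_ABL (hABS : T_ABS) : T_ABL := by
  intro m hm ε J hε hJ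
  obtain ⟨K, hK⟩ := exists_nat_ge ((m : ℝ) ^ 2 / 2 + m * J + ε + m * (m + 2) + 1)
  have hm0 : (0 : ℝ) ≤ m := Nat.cast_nonneg m
  have hmJ : 0 ≤ (m : ℝ) * J := by positivity
  have hmm : 0 ≤ (m : ℝ) ^ 2 / 2 := by positivity
  have hm2 : 0 ≤ (m : ℝ) * (m + 2) := by positivity
  refine ⟨K, 1 + 1 / ε, by linarith, by positivity, ?_⟩
  intro q Ψ mu lam M C1 hq hTh hlam
  have hK1 : m * (m + 2) < K := by
    have : ((m * (m + 2) : ℕ) : ℝ) < K := by
      push_cast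
      linarith
    exact_mod_cast this
  have hM : 0 ≤ M := by
    have h1 := hTh.bd0 1 one_pos
    rw [one_pow, Real.one_rpow, min_self, mul_one] at h1
    exact (norm_nonneg _).trans h1
  exact abl_core m q hm hq ε J M hε hJ hM K (by linarith) lam (fun r => ‖thF q Ψ mu lam r‖)
    (fun r hr => hABS m q K Ψ mu lam M ε C1 hm hK1 hTh hlam r hr) (fun r => norm_nonneg _)

end Pool.Agent.H32.GZ
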