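import Pool.Agent.H34.GZ.Targets1

/-!
MP_52e316_nt, cusp forms of `GL_m(Z)`, row CMA: comparison of the Siegel lengths.
-/

set_option autoImplicit false

namespace Pool.Agent.H32.GZ

open Pool.Agent.H34.GM Pool.Agent.H34.GZ

theorem abs_le_sz {m : ℕ} (z : Mat m) (i j : Fin m) : |z i j| ≤ sz z := by
  unfold sz
  have h1 := norm_le_pi_norm (fun i j => z i j : V m) i
  have h2 := norm_le_pi_norm (fun j => z i j) j
  rw [Real.norm_eq_abs] at h2
  exact h2.trans h1

theorem sz_nonneg {m : ℕ} (z : Mat m) : 0 ≤ sz z := norm_nonneg _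

theorem rowN_nonneg {m : ℕ} (v : Fin m → ℝ) : 0 ≤ rowN v := Real.sqrt_nonneg _

theorem abs_le_rowN {m : ℕ} (v : Fin m → ℝ) (i : Fin m) : |v i| ≤ rowN v := by
  unfold rowN
  rw [← Real.sqrt_sq_eq_abs]
  apply Real.sqrt_le_sqrt
  exact Finset.single_le_sum (f := fun i => v i ^ 2) (fun j _ => sq_nonneg (v j))
    (Finset.mem_univ i)

theorem rowN_le {m : ℕ} (v : Fin m → ℝ) (R : ℝ) (hR : 0 ≤ R) (h : ∀ i, |v i| ≤ R) :
    rowN v ≤ m * R := by
  unfold rowN
  rw [Real.sqrt_le_left (by positivity)]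
  rcases Nat.eq_zero_or_pos m with hm | hm
  · subst hm
    simp
  have hm1 : (1 : ℝ) ≤ m := by exact_mod_cast hm
  calc ∑ i, v i ^ 2 ≤ ∑ _i : Fin m, R ^ 2 := by
        apply Finset.sum_le_sum
        intro i _
        have := h i
        rw [← sq_abs]
        exact pow_le_pow_left₀ (abs_nonneg _) this 2
    _ = m * R ^ 2 := by
        rw [Finset.sum_const, Finset.card_univ, Fintype.card_fin, nsmul_eq_mul]
    _ ≤ (m * R) ^ 2 := by nlinarith [mul_nonneg (by linarith : (0 : ℝ) ≤ m) (sq_nonneg R)]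

theorem rowN_vecMul {m : ℕ} (v : Fin m → ℝ) (M : Mat m) :
    rowN (Matrix.vecMul v M) ≤ m ^ 2 * sz M * rowN v := by
  have h1 : ∀ t, |Matrix.vecMul v M t| ≤ m * (sz M * rowN v) := by
    intro t
    have e : Matrix.vecMul v M t = ∑ l, v l * M l t := rfl
    rw [e]
    calc |∑ l, v l * M l t| ≤ ∑ l, |v l * M l t| := Finset.abs_sum_le_sum_abs _ _
      _ ≤ ∑ _l : Fin m, sz M * rowN v := by
          apply Finset.sum_le_sum
          intro l _
          rw [abs_mul, mul_comm]
          exact mul_le_mul (abs_le_sz M l t) (abs_le_rowN v l) (abs_nonneg _) (sz_nonneg M)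
      _ = m * (sz M * rowN v) := by
          rw [Finset.sum_const, Finset.card_univ, Fintype.card_fin, nsmul_eq_mul]
  have h2 := rowN_le (Matrix.vecMul v M) (m * (sz M * rowN v))
    (mul_nonneg (Nat.cast_nonneg _) (mul_nonneg (sz_nonneg M) (rowN_nonneg v))) h1
  calc rowN (Matrix.vecMul v M) ≤ m * (m * (sz M * rowN v)) := h2
    _ = m ^ 2 * sz M * rowN v := by ring

/-- one of the first `i + 1` rows has a non zero coordinate of index at least `i` -/
theorem exists_row {m : ℕ} (x : ZM m) (hx : x.det ≠ 0) (i : Fin m) :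
    ∃ j l : Fin m, j ≤ i ∧ i ≤ l ∧ x j l ≠ 0 := by
  by_contra hcon
  push Not at hcon
  apply hx
  rw [Matrix.det_apply]
  apply Finset.sum_eq_zero
  intro σ _
  have hex : ∃ l : Fin m, σ l ≤ i ∧ i ≤ l := by
    by_contra hc
    push Not at hc
    have h1 : (Finset.univ.filter (fun l : Fin m => σ l ≤ i)).card ≤
        (Finset.univ.filter (fun l : Fin m => l < i)).card := by
      apply Finset.card_le_card
      intro l hl
      rw [Finset.mem_filter] at hl ⊢
      exact ⟨hl.1, hc l hl.2⟩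
    have h2 : (Finset.univ.filter (fun l : Fin m => σ l ≤ i)).card =
        (Finset.univ.filter (fun l : Fin m => l ≤ i)).card := by
      apply Finset.card_bij (fun l _ => σ l)
      · intro l hl
        rw [Finset.mem_filter] at hl ⊢
        exact ⟨Finset.mem_univ _, hl.2⟩
      · intro a _ b _ hab
        exact σ.injective hab
      · intro b hb
        rw [Finset.mem_filter] at hb
        refine ⟨σ.symm b, ?_, σ.apply_symm_apply b⟩
        rw [Finset.mem_filter]
        exact ⟨Finset.mem_univ _, by rw [σ.apply_symm_apply]; exact hb.2⟩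
    have h3 : (Finset.univ.filter (fun l : Fin m => l < i)).card <
        (Finset.univ.filter (fun l : Fin m => l ≤ i)).card := by
      apply Finset.card_lt_card
      rw [Finset.ssubset_iff_of_subset]
      · refine ⟨i, ?_, ?_⟩
        · rw [Finset.mem_filter]; exact ⟨Finset.mem_univ _, le_rfl⟩
        · rw [Finset.mem_filter]; exact fun h => lt_irrefl _ h.2
      · intro l hl
        rw [Finset.mem_filter] at hl ⊢
        exact ⟨hl.1, hl.2.le⟩
    omega
  obtain ⟨l, hl1, hl2⟩ := hex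
  have h0 : ∏ t, x (σ t) t = 0 :=
    Finset.prod_eq_zero (Finset.mem_univ l) (hcon (σ l) l hl1 hl2)
  rw [h0, smul_zero]

theorem pf_CMA (hCNT : T_CNT) : T_CMA := by
  intro m c hm hc
  have hm1 : (0 : ℝ) < m := by exact_mod_cast hm
  refine ⟨2 ^ m * (m ^ 2 * c * (m * 2 ^ m * 2 ^ m)), by positivity, ?_⟩
  intro b n a k b' n' a' k' x w hS hS' hx hw hwc hb' i
  obtain ⟨j, l, hji, hil, hjl⟩ := exists_row x hx i
  -- the top non zero index
  obtain ⟨t, ht, htmax⟩ := Finset.exists_max_image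
    (Finset.univ.filter (fun t : Fin m => x j t ≠ 0)) (fun t => t)
    ⟨l, by rw [Finset.mem_filter]; exact ⟨Finset.mem_univ _, hjl⟩⟩
  rw [Finset.mem_filter] at ht
  have hlt : l ≤ t := htmax l (by rw [Finset.mem_filter]; exact ⟨Finset.mem_univ _, hjl⟩)
  have hit : i ≤ t := hil.trans hlt
  have h3 : a t ≤ rowN (vb (x j) b) := by
    refine (hCNT m b n a k hS).2.2.1 (x j) t ?_ ht.2
    intro s hs
    by_contra hne
    have := htmax s (by rw [Finset.mem_filter]; exact ⟨Finset.mem_univ _, hne⟩)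
    exact absurd hs (not_lt.2 this)
  have hrow : vb (x j) b = Matrix.vecMul (b' j) w⁻¹ := by
    have e1 : cR x * b = b' * w⁻¹ := by
      rw [hb', Matrix.mul_assoc (cR x * b), Matrix.mul_nonsing_inv _ (Ne.isUnit hw),
        Matrix.mul_one]
    have e2 : (cR x * b) j = vb (x j) b := rfl
    have e3 : (b' * w⁻¹) j = Matrix.vecMul (b' j) w⁻¹ := rfl
    rw [← e2, e1, e3]
  have h4 : rowN (vb (x j) b) ≤ m ^ 2 * c * (m * 2 ^ m * 2 ^ m * a' i) := by
    rw [hrow]
    calc rowN (Matrix.vecMul (b' j) w⁻¹) ≤ m ^ 2 * sz w⁻¹ * rowN (b' j) := rowN_vecMul _ _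
      _ ≤ m ^ 2 * c * rowN (b' j) := by
          apply mul_le_mul_of_nonneg_right _ (rowN_nonneg _)
          exact mul_le_mul_of_nonneg_left hwc (by positivity)
      _ ≤ m ^ 2 * c * (m * 2 ^ m * a' j) := by
          apply mul_le_mul_of_nonneg_left _ (by positivity)
          exact (hCNT m b' n' a' k' hS').2.1 j
      _ ≤ m ^ 2 * c * (m * 2 ^ m * (2 ^ m * a' i)) := by
          apply mul_le_mul_of_nonneg_left _ (by positivity)
          apply mul_le_mul_of_nonneg_left _ (by positivity)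
          exact hS'.ord j i hji
      _ = m ^ 2 * c * (m * 2 ^ m * 2 ^ m * a' i) := by ring
  calc a i ≤ 2 ^ m * a t := hS.ord i t hit
    _ ≤ 2 ^ m * (m ^ 2 * c * (m * 2 ^ m * 2 ^ m * a' i)) := by
        apply mul_le_mul_of_nonneg_left (h3.trans h4) (by positivity)
    _ = 2 ^ m * (m ^ 2 * c * (m * 2 ^ m * 2 ^ m)) * a' i := by ring

end Pool.Agent.H32.GZ
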